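import Pool.Agent.helper75.WB.SpecI

/-!
# MP_bb5cc8_nt, row wb:I.INB: the final inequality
-/

set_option autoImplicit false

namespace Pool.Agent.WB

theorem INB : INB_stmt := by
  intro α lam δ hα hα1 hlam hlam1 hδ
  have htend : Filter.Tendsto (fun N : ℕ => (N : ℝ) ^ (10 * δ)) Filter.atTop Filter.atTop :=
    (tendsto_rpow_atTop (by positivity)).comp tendsto_natCast_atTop_atTop
  obtain ⟨N₀, hN₀⟩ := Filter.eventually_atTop.1
    ((htend.eventually_ge_atTop 36).and (Filter.eventually_ge_atTop 1))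
  refine ⟨N₀, fun N hN D r e T hD hr he hT => ?_⟩
  obtain ⟨h36, hN1⟩ := hN₀ N hN
  have hn1 : (1 : ℝ) ≤ (N : ℝ) := by exact_mod_cast hN1
  have hn0 : (0 : ℝ) < (N : ℝ) := by linarith
  set n : ℝ := (N : ℝ) with hn
  set Q : ℝ := n ^ (α - (α - 1 / 2 + lam) + 3 * δ) with hQ
  have hQ1 : 1 ≤ Q := Real.one_le_rpow hn1 (by linarith)
  have hQ2 : (2 * Q + 1) ^ 2 ≤ 9 * Q ^ 2 := by nlinarith
  have hQ3 : Q ^ 2 = n ^ (1 - 2 * lam + 6 * δ) := by
    rw [hQ, ← Real.rpow_natCast, ← Real.rpow_mul hn0.le]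
    congr 1
    push_cast
    ring
  set T' : ℝ := r * n ^ (2 * (α - 1 / 2 + lam) + 2 * lam - 20 * δ) with hT'
  have hT'0 : 0 < T' := by positivity
  have hpos : 0 < 4 * (2 * Q + 1) ^ 2 := by positivity
  calc 4 * (2 * Q + 1) ^ 2 * T < 4 * (2 * Q + 1) ^ 2 * T' := by
        exact mul_lt_mul_of_pos_left hT hpos
    _ ≤ 4 * (9 * Q ^ 2) * T' := by
        exact mul_le_mul_of_nonneg_right (by linarith) hT'0.le
    _ = 36 * (r * n ^ (2 * α + 2 * lam - 14 * δ)) := by
        rw [hQ3, hT']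
        have : n ^ (1 - 2 * lam + 6 * δ) * n ^ (2 * (α - 1 / 2 + lam) + 2 * lam - 20 * δ) =
            n ^ (2 * α + 2 * lam - 14 * δ) := by
          rw [← Real.rpow_add hn0]
          congr 1
          ring
        rw [← this]
        ring
    _ ≤ n ^ (10 * δ) * (r * n ^ (2 * α + 2 * lam - 14 * δ)) := by
        exact mul_le_mul_of_nonneg_right h36 (by positivity)
    _ = r * (n ^ (1 - 3 * δ) * n ^ (2 * (α - 1 / 2 + lam) - δ)) := by
        have h1 : n ^ (10 * δ) * n ^ (2 * α + 2 * lam - 14 * δ) = n ^ (2 * α + 2 * lam - 4 * δ) := by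
          rw [← Real.rpow_add hn0]
          congr 1
          ring
        have h2 : n ^ (1 - 3 * δ) * n ^ (2 * (α - 1 / 2 + lam) - δ) =
            n ^ (2 * α + 2 * lam - 4 * δ) := by
          rw [← Real.rpow_add hn0]
          congr 1
          ring
        rw [h2, ← h1]
        ring
    _ ≤ r * ((e * r) * D) := by
        refine mul_le_mul_of_nonneg_left ?_ hr.le
        refine mul_le_mul he hD (by positivity) ?_
        exact le_trans (by positivity) he
    _ = e * r ^ 2 * D := by ring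

end Pool.Agent.WB
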